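import Pool.Agent.W447.LT.Stm

/-! Project LT (helper883): one searching sweep. -/

set_option autoImplicit false

namespace Pool.Agent.W883.LT

open Pool.Agent.W447.LT Polynomial

/-- the course of a sweep -/
lemma gen {N : ℕ} {Q : Type} (ins : Q → MI N Q) (q q1 : Q) (cond : (Fin N → ZMod 2) → Prop)
    [DecidablePred cond] (a : Fin N → ZMod 2)
    (hrw : ∀ x, rw1 ins (.ac q) x = if cond x then (.dn q1, x + a) else (.ac q, x)) (T : ℕ)
    (x : ℕ → Fin N → ZMod 2) (σ : ℕ → Ct Q) (f : ℕ → Fin N → ZMod 2) (h0 : σ 0 = .ac q)
    (hstep : ∀ i < T, rw1 ins (σ i) (x i) = (σ (i + 1), f i)) :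
    ((∀ i < T, ¬ cond (x i)) ∧ (∀ i ≤ T, σ i = .ac q) ∧ (∀ i < T, f i = x i)) ∨
    (∃ i0 < T, cond (x i0) ∧ (∀ i < i0, ¬ cond (x i)) ∧ (∀ i ≤ i0, σ i = .ac q) ∧
      (∀ i, i0 < i → i ≤ T → σ i = .dn q1) ∧
      (∀ i < T, f i = if i = i0 then x i + a else x i)) := by
  have hac : ∀ i < T, σ i = .ac q → ¬ cond (x i) → σ (i + 1) = .ac q ∧ f i = x i := by
    intro i hi hs hc
    have h1 := hstep i hi
    rw [hs, hrw, if_neg hc, Prod.mk.injEq] at h1
    exact ⟨h1.1.symm, h1.2.symm⟩
  have hphase : ∀ m ≤ T, (∀ i < m, ¬ cond (x i)) → ∀ i ≤ m, σ i = .ac q := by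
    intro m hm hc i
    induction i with
    | zero => exact fun _ => h0
    | succ i ih =>
      intro hi
      exact (hac i (by omega) (ih (by omega)) (hc i (by omega))).1
  by_cases h : ∃ i, i < T ∧ cond (x i)
  · right
    classical
    set i0 := Nat.find h with hi0
    obtain ⟨h1, h2⟩ := Nat.find_spec h
    have h3 : ∀ i < i0, ¬ cond (x i) := by
      intro i hi hc
      exact Nat.find_min h hi ⟨by omega, hc⟩
    have h4 := hphase i0 h1.le h3
    have h5 : σ (i0 + 1) = .dn q1 ∧ f i0 = x i0 + a := by
      have h6 := hstep i0 h1
      rw [h4 i0 le_rfl, hrw, if_pos h2, Prod.mk.injEq] at h6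
      exact ⟨h6.1.symm, h6.2.symm⟩
    have h7 : ∀ i, i0 < i → i ≤ T → σ i = .dn q1 := by
      intro i hi
      induction i, hi using Nat.le_induction with
      | base => exact fun _ => h5.1
      | succ i hi ih =>
        intro hiT
        have h8 := hstep i (by omega)
        rw [ih (by omega)] at h8
        have h9 : (Ct.dn q1, x i) = (σ (i + 1), f i) := h8
        rw [Prod.mk.injEq] at h9
        exact h9.1.symm
    refine ⟨i0, h1, h2, h3, h4, h7, ?_⟩
    intro i hi
    by_cases hii : i = i0
    · subst hii
      rw [if_pos rfl]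
      exact h5.2
    · rw [if_neg hii]
      rcases lt_or_gt_of_ne hii with h8 | h8
      · exact (hac i hi (h4 i h8.le) (h3 i h8)).2
      · have h9 := hstep i hi
        rw [h7 i h8 hi.le] at h9
        have h10 : (Ct.dn q1, x i) = (σ (i + 1), f i) := h9
        rw [Prod.mk.injEq] at h10
        exact h10.2.symm
  · left
    push Not at h
    have h4 := hphase T le_rfl h
    exact ⟨h, h4, fun i hi => (hac i hi (h4 i hi.le) (h i hi)).2⟩

lemma sum_F {T : ℕ} {p : (ZMod 2)[X]} (hp : p = 0 ∨ p.natDegree < T) :
    ∑ i ∈ Finset.range T, Polynomial.C (p.coeff i) * X ^ i = p := by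
  rcases hp with hp | hp
  · subst hp
    simp
  · exact (Polynomial.as_sum_range_C_mul_X_pow' p hp).symm

lemma sum_mod {T : ℕ} {p : (ZMod 2)[X]} (hp : p = 0 ∨ p.natDegree < T) {i0 : ℕ} (hi0 : i0 < T)
    (g : ℕ → ZMod 2) (c : ZMod 2) (hg : ∀ i < T, g i = if i = i0 then p.coeff i + c else p.coeff i) :
    ∑ i ∈ Finset.range T, Polynomial.C (g i) * X ^ i = p + Polynomial.C c * X ^ i0 := by
  have h1 : ∀ i ∈ Finset.range T, Polynomial.C (g i) * (X : (ZMod 2)[X]) ^ i =
      Polynomial.C (p.coeff i) * X ^ i + if i = i0 then Polynomial.C c * X ^ i else 0 := by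
    intro i hi
    rw [hg i (Finset.mem_range.1 hi)]
    split_ifs
    · rw [Polynomial.C_add, add_mul]
    · rw [add_zero]
  rw [Finset.sum_congr rfl h1, Finset.sum_add_distrib, sum_F hp, Finset.sum_ite_eq',
    if_pos (Finset.mem_range.2 hi0)]

lemma wt_add {p : (ZMod 2)[X]} {i : ℕ} (h : p.coeff i = 0) :
    wt (p + Polynomial.C 1 * X ^ i) = wt p + 1 := by
  unfold wt
  have h1 : (p + Polynomial.C 1 * X ^ i).support = insert i p.support := by
    ext j
    rw [Polynomial.mem_support_iff, Finset.mem_insert, Polynomial.mem_support_iff,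
      Polynomial.coeff_add, Polynomial.coeff_C_mul, Polynomial.coeff_X_pow]
    by_cases hj : j = i
    · subst hj
      simp [h]
    · simp [hj]
  rw [h1, Finset.card_insert_of_notMem]
  rw [Polynomial.mem_support_iff]
  simpa using h

lemma wt_sub {p : (ZMod 2)[X]} {i : ℕ} (h : p.coeff i = 1) :
    wt (p + Polynomial.C 1 * X ^ i) = wt p - 1 := by
  unfold wt
  have h1 : (p + Polynomial.C 1 * X ^ i).support = p.support.erase i := by
    ext j
    rw [Polynomial.mem_support_iff, Finset.mem_erase, Polynomial.mem_support_iff,
      Polynomial.coeff_add, Polynomial.coeff_C_mul, Polynomial.coeff_X_pow]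
    by_cases hj : j = i
    · subst hj
      simp only [if_true, mul_one, h, ne_eq, not_true_eq_false, false_and, iff_false, not_not]
      decide
    · simp [hj]
  rw [h1, Finset.card_erase_of_mem]
  rw [Polynomial.mem_support_iff, h]
  decide

lemma z2 {x : ZMod 2} (h : x ≠ 0) : x = 1 := by
  revert x
  decide

/-- one searching sweep -/
theorem sweep : SWEEP := by
  intro N Q ins q T F σ f hT hdeg hc1 h0 hstep
  rcases hins : ins q with ⟨r, q1⟩ | ⟨r, q1, q'⟩ | ⟨q1⟩
  · -- inc
    have hrw : ∀ x : Fin N → ZMod 2, rw1 ins (.ac q) x =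
        if (fun x : Fin N → ZMod 2 => x r = 0) x then (.dn q1, x + Pi.single r 1)
        else (.ac q, x) := by
      intro x
      simp only [rw1, hins]
    rcases gen ins q q1 (fun x => x r = 0) (Pi.single r 1) hrw T
        (fun i r => (F r).coeff i) σ f h0 hstep with ⟨h1, _, _⟩ | ⟨i0, hi0, hc, _, hA, hB, hf⟩
    · exact absurd (hc1 r) (h1 1 (by omega))
    · refine ⟨?_, ?_⟩
      · intro i hi q' hq'
        rcases le_or_gt i i0 with h | h
        · rw [hA i h] at hq'
          cases hq'
        · rw [hB i h hi] at hq'
          cases hq'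
      · simp only [mstep, hins]
        refine Prod.ext ?_ ?_
        · show elb ins (σ T) = q1
          rw [hB T hi0 le_rfl]
          rfl
        · show (fun r' => wt (∑ i ∈ Finset.range T, Polynomial.C (f i r') * X ^ i)) =
            Function.update (fun r => wt (F r)) r (wt (F r) + 1)
          funext r'
          have h2 := sum_mod (hdeg r') hi0 (fun i => f i r')
            ((Pi.single r 1 : Fin N → ZMod 2) r') (by
              intro i hi
              show f i r' = _
              rw [hf i hi]
              split_ifs <;> rfl)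
          rw [h2]
          by_cases hr : r' = r
          · subst hr
            rw [Function.update_self, Pi.single_eq_same]
            exact wt_add hc
          · rw [Function.update_of_ne hr, Pi.single_eq_of_ne hr]
            simp
  · -- dec
    have hrw : ∀ x : Fin N → ZMod 2, rw1 ins (.ac q) x =
        if (fun x : Fin N → ZMod 2 => x r = 1) x then (.dn q1, x + Pi.single r 1)
        else (.ac q, x) := by
      intro x
      simp only [rw1, hins]
    rcases gen ins q q1 (fun x => x r = 1) (Pi.single r 1) hrw T
        (fun i r => (F r).coeff i) σ f h0 hstep with ⟨h1, h2, h3⟩ | ⟨i0, hi0, hc, _, hA, hB, hf⟩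
    · have hF : F r = 0 := by
        ext i
        rw [Polynomial.coeff_zero]
        by_contra hne
        rcases hdeg r with h | h
        · rw [h, Polynomial.coeff_zero] at hne
          exact hne rfl
        · have h4 : i ≤ (F r).natDegree := Polynomial.le_natDegree_of_ne_zero hne
          exact h1 i (by omega) (z2 hne)
      refine ⟨?_, ?_⟩
      · intro i hi q'' hq''
        rw [h2 i hi] at hq''
        cases hq''
      · have hw : wt (F r) = 0 := by
          rw [hF]
          simp [wt]
        simp only [mstep, hins, hw, if_true]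
        refine Prod.ext ?_ ?_
        · show elb ins (σ T) = q'
          rw [h2 T le_rfl]
          simp only [elb, hins]
        · funext r'
          show wt (∑ i ∈ Finset.range T, Polynomial.C (f i r') * X ^ i) = wt (F r')
          congr 1
          rw [← sum_F (hdeg r')]
          refine Finset.sum_congr rfl fun i hi => ?_
          rw [h3 i (Finset.mem_range.1 hi)]
    · refine ⟨?_, ?_⟩
      · intro i hi q'' hq''
        rcases le_or_gt i i0 with h | h
        · rw [hA i h] at hq''
          cases hq''
        · rw [hB i h hi] at hq''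
          cases hq''
      · have hw : wt (F r) ≠ 0 := by
          unfold wt
          rw [Finset.card_ne_zero]
          refine ⟨i0, ?_⟩
          rw [Polynomial.mem_support_iff]
          have hc' : (F r).coeff i0 = 1 := hc
          rw [hc']
          decide
        simp only [mstep, hins, hw, if_false]
        refine Prod.ext ?_ ?_
        · show elb ins (σ T) = q1
          rw [hB T hi0 le_rfl]
          rfl
        · show (fun r' => wt (∑ i ∈ Finset.range T, Polynomial.C (f i r') * X ^ i)) =
            Function.update (fun r => wt (F r)) r (wt (F r) - 1)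
          funext r'
          have h2 := sum_mod (hdeg r') hi0 (fun i => f i r')
            ((Pi.single r 1 : Fin N → ZMod 2) r') (by
              intro i hi
              show f i r' = _
              rw [hf i hi]
              split_ifs <;> rfl)
          rw [h2]
          by_cases hr : r' = r
          · subst hr
            rw [Function.update_self, Pi.single_eq_same]
            exact wt_sub hc
          · rw [Function.update_of_ne hr, Pi.single_eq_of_ne hr]
            simp
  · -- jmp
    have hrw : ∀ x : Fin N → ZMod 2, rw1 ins (.ac q) x =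
        if (fun _ : Fin N → ZMod 2 => True) x then (.dn q1, x + 0) else (.ac q, x) := by
      intro x
      simp only [rw1, hins, if_true, add_zero]
    rcases gen ins q q1 (fun _ => True) 0 hrw T
        (fun i r => (F r).coeff i) σ f h0 hstep with ⟨h1, _, _⟩ | ⟨i0, hi0, _, _, hA, hB, hf⟩
    · exact absurd trivial (h1 0 (by omega))
    · refine ⟨?_, ?_⟩
      · intro i hi q' hq'
        rcases le_or_gt i i0 with h | h
        · rw [hA i h] at hq'
          cases hq'
        · rw [hB i h hi] at hq'
          cases hq'
      · simp only [mstep, hins]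
        refine Prod.ext ?_ ?_
        · show elb ins (σ T) = q1
          rw [hB T hi0 le_rfl]
          rfl
        · show (fun r' => wt (∑ i ∈ Finset.range T, Polynomial.C (f i r') * X ^ i)) =
            fun r => wt (F r)
          funext r'
          have h2 := sum_mod (hdeg r') hi0 (fun i => f i r') 0 (by
              intro i hi
              show f i r' = _
              rw [hf i hi]
              split_ifs <;> rfl)
          rw [h2]
          simp

end Pool.Agent.W883.LT
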